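import Pool.Agent.Lib.MP_107652_al.Bar.Main

/-!
# The weighted girth of the graph of the odd components is an isomorphism invariant

For a finite labelled graph `Γ` let `bar Γ` be the following even labelled graph: the vertices are the
connected components of the graph of the edges of `Γ` with odd label; two components are adjacent if
some edge of `Γ` joins them; the label is the greatest common divisor of the labels of all edges
between them. If the Artin groups of `Γ` and `Λ` are isomorphic (no condition on `Γ`, `Λ`), then `bar Γ`
and `bar Λ` have the same weighted girth. The definitions are in `Pool/Agent/Lib/MP_107652_al/Defs.lean`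
(`LGraph`, `Artin`, `wgirth`), `One/BaseA.lean` (`oddGraph`) and `Bar/Base.lean` (`bar`).
-/

set_option autoImplicit false

namespace Pool.Agent.Results.MP_107652_al.CompGirth

open WGirth WGOne WGBar

/-- **Main theorem.** -/
theorem result (V W : Type) [Fintype V] [Fintype W] (Γ : LGraph V) (Λ : LGraph W)
    (φ : Artin Γ ≃* Artin Λ) : wgirth (bar Γ (oddGraph Γ).connectedComponentMk) =
      wgirth (bar Λ (oddGraph Λ).connectedComponentMk) :=
  theoremR V W _ _ Γ Λ _ _ (cmap_mk Γ) (cmap_mk Λ) φ

end Pool.Agent.Results.MP_107652_al.CompGirth
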