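import Pool.Agent.Lib.MP_107652_al.Odd.Main

/-!
# The weighted girth question when one of the two graphs has no odd edge on a cycle

Let `Γ` and `Λ` be finite labelled graphs with isomorphic Artin groups. Suppose that every edge of `Γ`
which lies on a cycle has an even label; nothing is assumed about `Λ`. Then every edge of `Λ` which lies
on a cycle has an even label, and `Γ` and `Λ` have the same weighted girth. The definitions (`LGraph`,
`Artin`, `wgirth`) are in `Pool/Agent/Lib/MP_107652_al/Defs.lean`.
-/

set_option autoImplicit false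

namespace Pool.Agent.Results.MP_107652_al.OneNoOdd

open WGirth

/-- **Main theorem.** -/
theorem result (V W : Type) [Finite V] [Finite W] (Γ : LGraph V) (Λ : LGraph W)
    (hΓ : ∀ (v : V) (p : Γ.graph.Walk v v), p.IsCycle → ∀ e ∈ p.edges, Even (Γ.label e))
    (φ : Artin Γ ≃* Artin Λ) :
    (∀ (w : W) (p : Λ.graph.Walk w w), p.IsCycle → ∀ e ∈ p.edges, Even (Λ.label e)) ∧
      wgirth Γ = wgirth Λ :=
  WGOdd.theoremFw V W Γ Λ hΓ φ

end Pool.Agent.Results.MP_107652_al.OneNoOdd
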